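import Pool.Agent.TH679.TG.Main
import Pool.Agent.TH679.TG.Upper
import Pool.Agent.TH679.TG.Asym

/-!
# Interval dynamic programming with few registers

Dynamic programming over intervals is the method by which context-free languages and the languages
of two-way pushdown automata are recognized in polynomial time, and it needs much space: a table
with an entry for each interval. We show that for pure dynamic programs this is necessary. We
consider the simplest problem of this kind: for each pair of points `i, j` of `0, ..., n` with
`i + 2 ≤ j` a weight `w i j` is given, and a bracketing of `n` factors, or (which is the same) a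
triangulation of a convex polygon with the vertices `0, ..., n`, is asked for which minimizes the
total weight of its pairs (minimum weight triangulation; optimal binary trees with a weight for each
possible subtree). With `V i (i + 1) = 0` it is `V 0 n` in
`V i j = w i j + min {V i k + V k j | i < k < j}`. This recursion uses about `n ^ 2` registers and
`O(n ^ 3)` steps. Programs compute step by step with `K` registers which hold real numbers or
infinity, using `min` and `+` (a step also can load a weight or a constant; the order of the steps
depends on `n` only, and may be chosen in any way).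

We show that with `n ^ (2 - ε)` registers `n ^ Ω(log n)` steps are necessary, for each fixed
`ε > 0`. The same holds for programs over the nonnegative real numbers with `+` and `*`, for the sum
over all triangulations of the product of the weights. The law behind this: if
`n ≥ (2 m + 2) (2 ^ s + 1)`, then for `K` registers and `L` steps
`(m ^ 2) ^ ⌊s / 3⌋ ≤ 2 L ((⌈log₂ L⌉ + 1) K) ^ ⌊s / 3⌋`.

Proof: all the weights except those of certain pairs are set to infinity, a few to 0, so that a
triangulation (of finite weight) is a labelling of the points `0, ..., 2 ^ s` with `m` labels, and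
its pairs of general weight are the dyadic intervals with the labels of their ends. Then recursion
over the intervals of time and over the dyadic windows: if the dyadic intervals of a window get into
one register during an interval of time, then the same is true for one of the halves of the interval
of time, or in the middle of it some register contains some, but not all of the intervals of the
window. The set of the intervals in this register does not depend on the labelling, and the register
determines the labels of the points at which intervals inside and outside of the set end. There are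
at least two such points; if there are `r`, then a dyadic window of relative size `1 / (4 r)` is free
of them, and it is inside or outside of the register as a whole.
-/

set_option autoImplicit false

namespace Pool.Agent.Results.MP_4e849b_lc.IntervalDynamicPrograms

open Filter
open Pool.Agent.TH679.TG
open Pool.Agent.H564R3.PW (Instr exec)
open scoped NNReal

/-- (1) The law: if a program with the registers `ρ` computes the minimum weight of a triangulation,
for all weights in the natural numbers, or the sum over the triangulations of the products of the
weights, for all nonnegative real weights, then for all `m ≥ 1` and `s` with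
`(2 * m + 2) * (2 ^ s + 1) ≤ n` it has
`(m ^ 2) ^ ⌊s / 3⌋ ≤ 2 * steps * ((⌈log₂ steps⌉ + 1) * registers) ^ ⌊s / 3⌋`.

(2) Over each commutative semiring `(n + 1) ^ 2 + 2` registers and `n ^ 2 * (2 * n + 1)` steps are
enough.

(3) For each `ε` there is `c > 0` such that for all large `n` programs with at most `n ^ (2 - ε)`
registers have at least `n ^ (c log₂ n)` steps. -/
theorem result :
    (∀ m s n : ℕ, 1 ≤ m → (2 * m + 2) * (2 ^ s + 1) ≤ n →
      ∀ (ρ : Type) [Fintype ρ] [DecidableEq ρ] (o : ρ),
      (∀ p, SolvesMin n p o → 1 ≤ p.length ∧ (m ^ 2) ^ (s / 3) ≤ 2 * p.length *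
        ((Nat.clog 2 p.length + 1) * Fintype.card ρ) ^ (s / 3)) ∧
      (∀ p, SolvesSum n p o → 1 ≤ p.length ∧ (m ^ 2) ^ (s / 3) ≤ 2 * p.length *
        ((Nat.clog 2 p.length + 1) * Fintype.card ρ) ^ (s / 3))) ∧
    (∀ n : ℕ, 1 ≤ n → ∀ (R : Type) [CommSemiring R],
      ∃ (ρ : Type) (_ : Fintype ρ) (_ : DecidableEq ρ)
        (p : List (Instr R (Fin (n + 1) × Fin (n + 1)) ρ)) (o : ρ),
        Fintype.card ρ = (n + 1) ^ 2 + 2 ∧ p.length ≤ n ^ 2 * (2 * n + 1) ∧
        ∀ w : Fin (n + 1) × Fin (n + 1) → R, exec w p o = polygon n w) ∧
    (∀ ε : ℝ, 0 < ε → ε ≤ 1 → ∃ c : ℝ, 0 < c ∧ ∀ᶠ n : ℕ in atTop,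
      ∀ (ρ : Type) [Fintype ρ] [DecidableEq ρ] (o : ρ),
        (Fintype.card ρ : ℝ) ≤ (n : ℝ) ^ (2 - ε) →
        (∀ p, SolvesMin n p o → (n : ℝ) ^ (c * Real.logb 2 n) ≤ p.length) ∧
        (∀ p, SolvesSum n p o → (n : ℝ) ^ (c * Real.logb 2 n) ≤ p.length)) := by
  refine ⟨?_, upper, ?_⟩
  · intro m s n hm hn ρ _ _ o
    exact ⟨fun p hp => lawMin hm hn p o hp, fun p hp => lawSum hm hn p o hp⟩
  · intro ε hε hε2
    obtain ⟨ν₀, hν₀⟩ := exists_large ε hε
    refine ⟨ε ^ 2 / 400, by positivity, ?_⟩
    have hlarge : ∀ᶠ n : ℕ in atTop, (2 : ℝ) ^ ν₀ ≤ (n : ℝ) :=
      tendsto_natCast_atTop_atTop.eventually_ge_atTop _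
    filter_upwards [hlarge, eventually_ge_atTop 8] with n hn hn8 ρ _ _ o hK
    have hn0 : (0 : ℝ) < n := by
      have : 0 < n := by omega
      exact_mod_cast this
    have hν : ν₀ ≤ Real.logb 2 n := by
      rw [Real.le_logb_iff_rpow_le (by norm_num) hn0]
      exact hn
    obtain ⟨g1, g2, g3⟩ := hν₀ _ hν
    refine ⟨fun p hp => ?_, fun p hp => ?_⟩
    · refine steps_ge hε hε2 g1 g2 g3 (by omega) ?_ hK
        fun m s hm hms => (lawMin hm hms p o hp).2
      exact (lawMin (m := 1) (s := 0) le_rfl (by norm_num; omega) p o hp).1
    · refine steps_ge hε hε2 g1 g2 g3 (by omega) ?_ hK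
        fun m s hm hms => (lawSum hm hms p o hp).2
      exact (lawSum (m := 1) (s := 0) le_rfl (by norm_num; omega) p o hp).1

end Pool.Agent.Results.MP_4e849b_lc.IntervalDynamicPrograms
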