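import Pool.Agent.TH431.RK.All2

/-!
# Multihead finite automata for a two-way pushdown language: one free head is not enough

There is a language `L` over four letters, accepted by a deterministic two-way pushdown automaton with
one head, such that for every `k` the following holds for nondeterministic two-way `k`-head finite
automata accepting `L`. On some word of `L` of length `n`, in every accepting computation, for every
head `h` the other `k - 1` heads move at `c n log n / log log n` steps at least, and one of them makes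
at least `c log n / log log n` sweeps. In particular `L` is accepted by no nondeterministic two-way
multihead finite automaton in which all heads but one make a bounded number of reversals, or
`o(log n / log log n)` reversals; the remaining head is not restricted.
-/

set_option autoImplicit false

namespace Pool.Agent.Results.MP_4e849b_lc.OneFreeHead

open Pool.Agent.H867R4

open Classical in
/-- the number of steps before time `T` at which some head other than `h` moves -/
noncomputable def otherMoves {k : ℕ} {Q : Type} (ρ : ℕ → NCfg k Q) (h : Fin k) (T : ℕ) : ℕ :=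
  ((Finset.Ico 0 T).filter (fun s => ∃ i, i ≠ h ∧ (ρ (s + 1)).p i ≠ (ρ s).p i)).card

/-- the time up to `T` splits into `I` parts, in each of which head `h` moves in one direction only -/
def Sweeps {k : ℕ} {Q : Type} (ρ : ℕ → NCfg k Q) (h : Fin k) (T I : ℕ) : Prop :=
  ∃ t : ℕ → ℕ, t 0 = 0 ∧ t I = T ∧ ∀ j < I, t j ≤ t (j + 1) ∧
    ((∀ s, t j ≤ s → s < t (j + 1) → (ρ s).p h ≤ (ρ (s + 1)).p h) ∨
     (∀ s, t j ≤ s → s < t (j + 1) → (ρ (s + 1)).p h ≤ (ρ s).p h))

/-- There is a language `L` over four letters, accepted by a deterministic two-way pushdown automaton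
with one input head, such that for every `k` and every finite set `Q` of states there is `c > 0` with
the following property, for arbitrarily large `n`. Let `M` be a nondeterministic two-way `k`-head
finite automaton with state set `Q` which is correct on the words of length `n`. Then for some
`w ∈ L` of length `n`, in every accepting computation on `w`, for every head `h`, at
`c n log n / log log n` steps at least some head other than `h` moves; and if every head other than
`h` makes at most `I` sweeps, then `I ≥ c log n / log log n`. -/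
theorem result : ∃ L : Set (List (Fin 4)), Pool.Agent.H541R2.TwoDPDA L ∧
    ∀ (k : ℕ) (Q : Type) (_ : Fintype Q), ∃ c : ℝ, 0 < c ∧ ∀ n₀ : ℕ, ∃ n : ℕ, n₀ ≤ n ∧
      ∀ M : NMach (Fin 4) k Q, (∀ w : List (Fin 4), w.length = n → (w ∈ L ↔ M.Accepts w)) →
        ∃ w : List (Fin 4), w.length = n ∧ w ∈ L ∧
          ∀ (T : ℕ) (ρ : ℕ → NCfg k Q), M.AccRun w T ρ → ∀ h : Fin k,
            c * ((n : ℝ) * Real.log n / Real.log (Real.log n)) ≤ otherMoves ρ h T ∧
            ∀ I : ℕ, (∀ i, i ≠ h → Sweeps ρ i T I) →
              c * (Real.log n / Real.log (Real.log n)) ≤ I := by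
  classical
  refine ⟨Pool.Agent.H541R2.theLang, Pool.Agent.H541R2.theLang_twoDPDA, fun k Q _ => ?_⟩
  obtain ⟨c, hc, H⟩ := Pool.Agent.TH431.RK.final k Q
  refine ⟨c / (2 * (k + 1)), by positivity, fun n₀ => ?_⟩
  obtain ⟨n, hn, hM⟩ := H (max n₀ 16)
  have hn0 : n₀ ≤ n := le_trans (le_max_left _ _) hn
  have hn1 : 16 ≤ n := le_trans (le_max_right _ _) hn
  refine ⟨n, hn0, fun M hacc => ?_⟩
  obtain ⟨w, hw1, hw2, hw3⟩ := hM M hacc
  refine ⟨w, hw1, hw2, fun T ρ hρ h => ?_⟩
  have h1 := hw3 T ρ hρ h
  have hnR : (16 : ℝ) ≤ n := by exact_mod_cast hn1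
  have hlog : 1 ≤ Real.log n := by
    rw [Real.le_log_iff_exp_le (by linarith)]
    have := Real.exp_one_lt_d9
    linarith
  have hll : 0 ≤ Real.log (Real.log n) := Real.log_nonneg hlog
  have hk0 : (0 : ℝ) ≤ k := by positivity
  have e : (otherMoves ρ h T : ℝ) = (Pool.Agent.TH431.RK.smv ρ h 0 T : ℝ) := rfl
  have hx : 0 ≤ (n : ℝ) * Real.log n / Real.log (Real.log n) := by positivity
  refine ⟨?_, fun I hI => ?_⟩
  · rw [e]
    have h2 : c / (2 * (k + 1)) ≤ c := by
      rw [div_le_iff₀ (by positivity)]
      nlinarith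
    have h3 : c / (2 * (k + 1)) * ((n : ℝ) * Real.log n / Real.log (Real.log n)) ≤
        c * ((n : ℝ) * Real.log n / Real.log (Real.log n)) :=
      mul_le_mul_of_nonneg_right h2 hx
    linarith
  · obtain ⟨hρ0, hst, hF⟩ := hρ
    have hpos : ∀ s, s ≤ T → ∀ i, (ρ s).p i ≤ n + 1 := by
      intro s hs i
      have := (pos_close (M := M) (w := w) (ρ := ρ) (t := 0) s
        (fun s' _ hs' => hst s' (by omega)) (by rw [hρ0]; intro i; simp) i).2.2
      rwa [Nat.zero_add, hw1] at this
    have h2 := Pool.Agent.TH431.RK.smv_le ρ h T (I * (n + 1)) (by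
      intro i hi
      obtain ⟨t, h0, htI, ht⟩ := hI i hi
      exact Pool.Agent.TH431.RB.mvs_sweeps (fun s hs => hpos s hs i) t h0 htI ht)
    have h3 : (Pool.Agent.TH431.RK.smv ρ h 0 T : ℝ) ≤ k * (I * (n + 1)) := by exact_mod_cast h2
    have hI0 : (0 : ℝ) ≤ I := by positivity
    have h4 : (c * (Real.log n / Real.log (Real.log n))) * (n : ℝ) ≤
        ((2 * ((k : ℝ) + 1)) * (I : ℝ)) * (n : ℝ) := by
      calc (c * (Real.log n / Real.log (Real.log n))) * (n : ℝ)
          = c * ((n : ℝ) * Real.log n / Real.log (Real.log n)) := by ring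
        _ ≤ (k : ℝ) * ((I : ℝ) * ((n : ℝ) + 1)) := h1.trans h3
        _ ≤ ((k : ℝ) + 1) * ((I : ℝ) * ((n : ℝ) + n)) := by
            gcongr
            · linarith
            · linarith
        _ = ((2 * ((k : ℝ) + 1)) * (I : ℝ)) * (n : ℝ) := by ring
    have h5 : c * (Real.log n / Real.log (Real.log n)) ≤ (2 * ((k : ℝ) + 1)) * (I : ℝ) :=
      le_of_mul_le_mul_right h4 (by linarith)
    rw [div_mul_eq_mul_div, div_le_iff₀ (by positivity)]
    linarith

end Pool.Agent.Results.MP_4e849b_lc.OneFreeHead
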