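import Mathlib
import Pool.Agent.H538R4.SP.Final

/-!
# Solvable path systems: linear time needs exponential size

Path systems are the standard complete problem for `P` (Cook), so that `P ⊆ L` iff it is solvable
in logarithmic space.  A path system is given by `M` records of five names of `ℓ + 1` bits
(`SPBits M ℓ`, `name`, `Adm`, `Solvable`).

For `D n ≤ M, 2 ^ ℓ` there is a subcube of instances, in which only the first bits of the heads of
`n` given triples are free (`plug`), such that

* every deterministic branching program which accepts only solvable instances of the subcube and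
  which accepts at least the fraction `2 ^ (-n/D)` of the solvable ones with at most `k n` queries
  of the `n` free bits has at least `2 ^ (n/D)` nodes;
* the same holds for nondeterministic programs and accepting computations which query at most `n/D`
  of the free bits more than once, or which make at most `n + n/D` queries of free bits.
-/

set_option autoImplicit false

open Finset

namespace Pool.Agent.Results.MP_4e849b_lc.PathSystemsLinearTime

open Pool.Agent.H554R2.Sem Pool.Agent.H554R2.Coin Pool.Agent.H554R2.Cnf Pool.Agent.H538R4.SP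

theorem walk_unique {ι β : Type} (P : BP ι β) (x : ι → Bool) :
    ∀ (l l' : List ι) (s v v' : P.State) (b b' : β), P.Walk x s l v → P.node v = Sum.inr b →
      P.Walk x s l' v' → P.node v' = Sum.inr b' → l = l' ∧ b = b' := by
  intro l
  induction l with
  | nil =>
    intro l' s v v' b b' h hv h' hv'
    have h1 : s = v := h
    subst h1
    cases l' with
    | nil =>
      have h2 : s = v' := h'
      subst h2
      rw [hv] at hv'
      exact ⟨rfl, Sum.inr.inj hv'⟩
    | cons i l' =>
      obtain ⟨nxt, hn, _⟩ := h'
      rw [hv] at hn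
      exact absurd hn (by simp)
  | cons i l ih =>
    intro l' s v v' b b' h hv h' hv'
    obtain ⟨nxt, hn, hw⟩ := h
    cases l' with
    | nil =>
      have h2 : s = v' := h'
      subst h2
      rw [hn] at hv'
      exact absurd hv' (by simp)
    | cons j l' =>
      obtain ⟨nxt', hn', hw'⟩ := h'
      rw [hn] at hn'
      have h3 := Sum.inl.inj hn'
      rw [Prod.mk.injEq] at h3
      obtain ⟨h4, h5⟩ := h3
      subst h4
      subst h5
      obtain ⟨h6, h7⟩ := ih l' _ v v' b b' hw hv hw' hv'
      exact ⟨by rw [h6], h7⟩

/-- **Solvable path systems.**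

(1) Deterministic programs, a constant number of queries of the free bits on the average.

(2) Nondeterministic programs with few rereads of the free bits.

(3) The worst case: a program which decides the solvability of the path systems given by `M`
records, and which on no input makes more than `k * (M / D)` queries of the first bits of the heads
of the first `M / D` triples, has at least `2 ^ (M / D / D)` nodes. -/
theorem result :
    (∀ k : ℕ, ∃ D : ℕ, 0 < D ∧ ∀ (n M ℓ : ℕ) (a : Fin n ↪ Fin M), D * n ≤ M → D * n ≤ 2 ^ ℓ →
      ∃ b : SPBits M ℓ → Bool, ∀ P : BP (SPBits M ℓ) Bool,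
        (∀ (x : Pt n) L, P.Comp (plug (fun i => headBit (a i)) b x) L true →
          Solvable (plug (fun i => headBit (a i)) b x)) →
        Nat.card {x : Pt n // Solvable (plug (fun i => headBit (a i)) b x)} ≤ 2 ^ (n / D) *
          Nat.card {x : Pt n // ∃ L, P.Comp (plug (fun i => headBit (a i)) b x) L true ∧
            ∑ i, L.count (headBit (a i)) ≤ k * n} →
        2 ^ (n / D) ≤ Fintype.card P.State) ∧
    (∃ D : ℕ, 0 < D ∧ ∀ (n M ℓ : ℕ) (a : Fin n ↪ Fin M), D * n ≤ M → D * n ≤ 2 ^ ℓ →
      ∃ b : SPBits M ℓ → Bool, ∀ P : NBP (SPBits M ℓ),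
        (∀ (x : Pt n) l, P.Accepting (plug (fun i => headBit (a i)) b x) l →
          Solvable (plug (fun i => headBit (a i)) b x)) →
        Nat.card {x : Pt n // Solvable (plug (fun i => headBit (a i)) b x)} ≤ 2 ^ (n / D) *
          Nat.card {x : Pt n // ∃ l, P.Accepting (plug (fun i => headBit (a i)) b x) l ∧
            ((univ.filter (fun i => 2 ≤ (l.filterMap P.query).count (headBit (a i)))).card ≤ n / D ∨
              ∑ i, (l.filterMap P.query).count (headBit (a i)) ≤ n + n / D)} →
        2 ^ (n / D) ≤ Fintype.card P.State) ∧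
    (∀ k : ℕ, ∃ D : ℕ, 0 < D ∧ ∀ (M ℓ : ℕ), M ≤ 2 ^ ℓ → ∀ P : BP (SPBits M ℓ) Bool,
      (∀ w : SPBits M ℓ → Bool, ∃ (L : List (SPBits M ℓ)) (r : Bool), P.Comp w L r ∧
        (r = true ↔ Solvable w) ∧
        ∑ c ∈ univ.filter (fun c : Fin M => (c : ℕ) < M / D), L.count (headBit c) ≤
          k * (M / D)) →
      2 ^ (M / D / D) ≤ Fintype.card P.State) := by
  refine ⟨finalB, ?_, fun k => ?_⟩
  · obtain ⟨D, hD, h⟩ := finalN
    exact ⟨D, hD, h⟩
  · obtain ⟨D, hD, h⟩ := finalB k
    refine ⟨D, hD, fun M ℓ hM P hP => ?_⟩
    have hle : M / D ≤ M := Nat.div_le_self M D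
    have hDM : D * (M / D) ≤ M := Nat.mul_div_le M D
    let a : Fin (M / D) ↪ Fin M := Fin.castLEEmb hle
    obtain ⟨b, hb⟩ := h (M / D) M ℓ a hDM (hDM.trans hM)
    refine hb P ?_ ?_
    · intro x L hL
      obtain ⟨L', r, ⟨v', hw', hv'⟩, hr, _⟩ := hP (plug (fun i => headBit (a i)) b x)
      obtain ⟨v, hw, hv⟩ := hL
      obtain ⟨_, h2⟩ := walk_unique P _ L L' _ v v' true r hw hv hw' hv'
      exact hr.1 h2.symm
    · have hsum : ∀ L : List (SPBits M ℓ), ∑ i, L.count (headBit (a i)) =
          ∑ c ∈ univ.filter (fun c : Fin M => (c : ℕ) < M / D), L.count (headBit c) := by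
        intro L
        have hmap : univ.filter (fun c : Fin M => (c : ℕ) < M / D) = univ.map a := by
          ext c
          simp only [mem_filter, mem_univ, true_and, mem_map]
          constructor
          · intro hc
            exact ⟨⟨c, hc⟩, Fin.ext rfl⟩
          · rintro ⟨i, rfl⟩
            exact i.2
        rw [hmap, sum_map]
      have hle2 : Nat.card {x : Pt (M / D) // Solvable (plug (fun i => headBit (a i)) b x)} ≤
          Nat.card {x : Pt (M / D) // ∃ L, P.Comp (plug (fun i => headBit (a i)) b x) L true ∧
            ∑ i, L.count (headBit (a i)) ≤ k * (M / D)} := by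
        refine Nat.card_le_card_of_injective (fun x => ⟨x.1, ?_⟩) ?_
        · obtain ⟨L, r, hc, hr, hcount⟩ := hP (plug (fun i => headBit (a i)) b x.1)
          have hr' : r = true := hr.2 x.2
          subst hr'
          exact ⟨L, hc, by rw [hsum]; exact hcount⟩
        · intro x y hxy
          exact Subtype.ext (congrArg (fun z => z.1) hxy)
      exact hle2.trans (Nat.le_mul_of_pos_left _ (by positivity))

end Pool.Agent.Results.MP_4e849b_lc.PathSystemsLinearTime
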