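import Pool.Agent.TH679.SP.Main
import Pool.Agent.TH679.SP.Upper
import Pool.Agent.TH679.SP.Asym

/-!
# Spin systems on strips need more registers than weights

A system of spins with pair interactions: each vertex of a graph gets one of `m` colors (spins), and
for each edge there is a weight for each pair of colors of its ends. The ground state energy is the
least sum of the weights of all edges over all colorings; the partition function is the sum over all
colorings of the products of the weights. If the graph is a strip (grid) with `d` rows, both can be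
computed vertex by vertex with about `2 m ^ d` registers, which is a polynomial number of registers
and steps if `d` is `c log N`, `N` being the number of the weights. We show that pure dynamic
programs (with the operations `min` and `+`, or `+` and `*` over the nonnegative real numbers, in
which a step also can load a weight or a constant; the program may depend on the graph in any way)
cannot do better: for each `c` and each `ε` there are strips with two colors and `N` weights such
that with `N ^ (c - ε)` registers `N ^ Ω(log N)` steps are necessary, but with `N ^ c` registers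
`N ^ (c + 1)` steps are enough. So for these problems, which are solvable in polynomial time, no
fixed polynomial number of registers is enough for a polynomial number of steps. (Divide and conquer
needs `O(log N)` registers and `N ^ O(log N)` steps; we do not prove this here.)

For the proof the strip is cut into blocks of `4 d` columns. If a register holds parts of the
products for several colorings, then these parts belong to the same set of edges, and the colorings
agree at the vertices where this set and its complement meet. If the set has more than half of the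
edges of one block (counting the horizontal ones) and at most half of those of the next block, or
between a quarter and a half of a block, then there are at least `d` such vertices in the two
blocks, since otherwise there are a row and most of the columns without them. Recursion over the
intervals of time and over windows of blocks gives
`(m ^ d) ^ κ ≤ 2 L ((⌈log₂ L⌉ + 1) K) ^ κ` for `K` registers and `L` steps, with
`κ = ⌈log₄ (n + 3)⌉ - 1`, for `n` blocks.
-/

set_option autoImplicit false

namespace Pool.Agent.Results.MP_4e849b_lc.SpinSystemRegisters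

open Filter
open Pool.Agent.TH679.SP
open Pool.Agent.H564R3.PW (Instr exec)
open scoped NNReal

/-- (1) The law: for a strip with `d` rows and `S ≥ 4 d ^ 2 n` a program with the registers `ρ` which
computes the ground state energy for all weights in the natural numbers (or the partition function
for all nonnegative real weights) satisfies
`(m ^ d) ^ κ ≤ 2 * steps * ((⌈log₂ steps⌉ + 1) * registers) ^ κ` with `κ = ⌈log₄ (n + 3)⌉ - 1`.

(2) Over each commutative semiring `2 m ^ d + 2` registers and
`3 ((3 m + 1) S m ^ d + 2 m ^ d + 1)` steps are enough.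

(3) For all `0 < ε ≤ c` there is `c' > 0` such that for all large `d` and the strip with `d` rows and
`S = 4 d ^ 2 ⌈2 ^ (d / c)⌉`, with two colors and `N` weights, programs with at most `N ^ (c - ε)`
registers have at least `N ^ (c' log₂ N)` steps, but there is a program with at most `N ^ c`
registers and at most `N ^ (c + 1)` steps. -/
theorem result :
    (∀ (S d m n : ℕ) (hd : 1 ≤ d), 1 ≤ n → 1 ≤ m → 4 * d * d * n ≤ S →
      ∀ (ρ : Type) [Fintype ρ] [DecidableEq ρ] (o : ρ),
        (∀ p : List (Instr (Tropical (WithTop ℝ)) (Pos S × Fin m × Fin m) ρ),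
          SolvesMin (lft (S := S) hd) (rgt hd) p o →
          (m ^ d) ^ (Nat.clog 4 (n + 3) - 1) ≤ 2 * p.length *
            ((Nat.clog 2 p.length + 1) * Fintype.card ρ) ^ (Nat.clog 4 (n + 3) - 1)) ∧
        (∀ p : List (Instr ℝ≥0 (Pos S × Fin m × Fin m) ρ),
          SolvesSum (lft (S := S) hd) (rgt hd) p o →
          (m ^ d) ^ (Nat.clog 4 (n + 3) - 1) ≤ 2 * p.length *
            ((Nat.clog 2 p.length + 1) * Fintype.card ρ) ^ (Nat.clog 4 (n + 3) - 1))) ∧
    (∀ (R : Type) [CommSemiring R] (S d m : ℕ) (hd : 1 ≤ d),
      ∃ (ρ : Type) (_ : Fintype ρ) (_ : DecidableEq ρ) (o : ρ)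
        (p : List (Instr R (Pos S × Fin m × Fin m) ρ)), Fintype.card ρ = 2 * m ^ d + 2 ∧
        p.length ≤ 3 * ((3 * m + 1) * (S * m ^ d) + 2 * m ^ d + 1) ∧
        ∀ w : Pos S × Fin m × Fin m → R, exec w p o = stateSum (lft hd) (rgt hd) w) ∧
    (∀ c ε : ℝ, 0 < ε → ε ≤ c → ∃ c' : ℝ, 0 < c' ∧ ∀ᶠ d : ℕ in atTop, ∃ hd : 1 ≤ d, ∀ S N : ℕ,
      S = 4 * d * d * ⌈(2 : ℝ) ^ ((d : ℝ) / c)⌉₊ →
      N = Fintype.card (Pos S × Fin 2 × Fin 2) →
      (∀ (ρ : Type) [Fintype ρ] [DecidableEq ρ] (o : ρ),
        (Fintype.card ρ : ℝ) ≤ (N : ℝ) ^ (c - ε) →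
        (∀ p : List (Instr (Tropical (WithTop ℝ)) (Pos S × Fin 2 × Fin 2) ρ),
          SolvesMin (lft (S := S) hd) (rgt hd) p o →
            (N : ℝ) ^ (c' * Real.logb 2 N) ≤ p.length) ∧
        (∀ p : List (Instr ℝ≥0 (Pos S × Fin 2 × Fin 2) ρ),
          SolvesSum (lft (S := S) hd) (rgt hd) p o →
            (N : ℝ) ^ (c' * Real.logb 2 N) ≤ p.length)) ∧
      (∀ (R : Type) [CommSemiring R],
        ∃ (ρ : Type) (_ : Fintype ρ) (_ : DecidableEq ρ) (o : ρ)
          (p : List (Instr R (Pos S × Fin 2 × Fin 2) ρ)),
          (Fintype.card ρ : ℝ) ≤ (N : ℝ) ^ c ∧ (p.length : ℝ) ≤ (N : ℝ) ^ (c + 1) ∧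
          ∀ w : Pos S × Fin 2 × Fin 2 → R, exec w p o = stateSum (lft hd) (rgt hd) w)) := by
  have hreg : ∀ m d : ℕ, Fintype.card (Option (Option (Bool × Pool.Agent.TH679.DB.Word m d))) =
      2 * m ^ d + 2 := by
    intro m d
    rw [Fintype.card_option, Fintype.card_option, Fintype.card_prod, Fintype.card_bool, card_word]
  have hdS : ∀ {S d n : ℕ}, 1 ≤ d → 1 ≤ n → 4 * d * d * n ≤ S → d ≤ S := by
    intro S d n hd hn h
    refine le_trans ?_ h
    calc d = 1 * 1 * d * 1 := by ring
      _ ≤ 4 * d * d * n := by gcongr; omega
  refine ⟨?_, ?_, ?_⟩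
  · intro S d m n hd hn hm hS ρ _ _ o
    exact ⟨fun p h => (lawMin hm hd (hdS hd hn hS) hS p o h).2,
      fun p h => (lawSum hm hd (hdS hd hn hS) hS p o h).2⟩
  · intro R _ S d m hd
    obtain ⟨p, h1, h2⟩ := upper_strip R S m hd
    exact ⟨_, inferInstance, inferInstance, some none, p, hreg m d, h1, h2⟩
  · intro c ε hε hεc
    have hc : 0 < c := lt_of_lt_of_le hε hεc
    obtain ⟨d₀, hd₀⟩ := exists_large c ε hε hc
    refine ⟨ε / (8 * (c + 1) ^ 2), by positivity, ?_⟩
    have hlarge : ∀ᶠ d : ℕ in atTop, d₀ ≤ (d : ℝ) :=
      tendsto_natCast_atTop_atTop.eventually_ge_atTop d₀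
    filter_upwards [hlarge, eventually_ge_atTop 1] with d hd hd1
    refine ⟨hd1, fun S N hS hN => ?_⟩
    obtain ⟨n, hn⟩ : ∃ n, n = ⌈(2 : ℝ) ^ ((d : ℝ) / c)⌉₊ := ⟨_, rfl⟩
    rw [← hn] at hS
    have hn1 : 1 ≤ n := by
      rw [hn, Nat.one_le_ceil_iff]
      positivity
    have hcard : Fintype.card (Pos S × Fin 2 × Fin 2) = 8 * S := by
      rw [Fintype.card_prod, Fintype.card_prod, Fintype.card_fin,
        Fintype.card_congr (posEquiv S), Fintype.card_prod, Fintype.card_fin, Fintype.card_bool]
      ring
    rw [hcard] at hN
    obtain ⟨s1, s2, s3⟩ := asym hε hεc hd₀ hd hn hS hN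
    refine ⟨?_, ?_⟩
    · intro ρ _ _ o hK
      refine ⟨fun p h => ?_, fun p h => ?_⟩
      · obtain ⟨h1, h2⟩ := lawMin (by norm_num) hd1 (hdS hd1 hn1 hS.ge) hS.ge p o h
        exact s1 _ _ h1 hK h2
      · obtain ⟨h1, h2⟩ := lawSum (by norm_num) hd1 (hdS hd1 hn1 hS.ge) hS.ge p o h
        exact s1 _ _ h1 hK h2
    · intro R _
      obtain ⟨p, h1, h2⟩ := upper_strip R S 2 hd1
      refine ⟨_, inferInstance, inferInstance, some none, p, ?_, ?_, h2⟩
      · rw [hreg]
        push_cast
        exact s2
      · refine le_trans ?_ s3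
        exact_mod_cast h1

end Pool.Agent.Results.MP_4e849b_lc.SpinSystemRegisters
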